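import Pool.Agent.TH998.Exp.RFam

/-!
# A recursively defined class of `r`-graphs with Turán numbers `O (n ^ (r - 1))`

The class contains the `r`-uniform expansions of the complete bipartite graphs `K_{a,b}` with
`a ≤ r (r - 1) / 2` and all `b` (and of the graphs stacked over them), and is closed under taking
subhypergraphs, tight extensions, disjoint unions and cones (which raise `r` by one).
-/

open Filter Asymptotics Pool.Agent.TH998.Exp

namespace Pool.Agent.Results.MP_5a6238_co.RecursiveClass

theorem result (r : ℕ) (U : Type) (F : Set (Set U)) (hF : Fam r U F) :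
    (fun n : ℕ => (exR r n F : ℝ)) =O[atTop] (fun n : ℕ => (n : ℝ) ^ (r - 1)) :=
  fam_bigO hF

end Pool.Agent.Results.MP_5a6238_co.RecursiveClass
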